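import Mathlib

set_option autoImplicit false

open MeasureTheory Set

namespace Pool.Agent.H522Z.BM

/-- square wave -/
noncomputable def sqw (x : ℝ) : ℝ := if Even ⌊x⌋ then 1 else -1

lemma sqw_cases (x : ℝ) : sqw x = 1 ∨ sqw x = -1 := by
  unfold sqw; split_ifs <;> simp

lemma abs_sqw (x : ℝ) : |sqw x| = 1 := by
  rcases sqw_cases x with h | h <;> simp [h]

lemma measurable_sqw : Measurable sqw := by
  have h : sqw = (fun k : ℤ => if Even k then (1:ℝ) else -1) ∘ Int.floor := by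
    funext x; simp [sqw]
  rw [h]
  exact (measurable_from_top (f := fun k : ℤ => if Even k then (1:ℝ) else -1)).comp
    Int.measurable_floor

lemma sqw_congr {x y : ℝ} (h : ⌊x⌋ = ⌊y⌋) : sqw x = sqw y := by
  unfold sqw; rw [h]

/-- the Riesz-product density -/
noncomputable def dens (p q : ℕ) (K : ℕ) (x y : ℝ) : ℝ :=
  ∏ k ∈ Finset.range K, (1 + sqw ((p:ℝ) ^ (k+1) * x) * sqw ((q:ℝ) ^ (k+1) * y))

lemma fac_nonneg (a b : ℝ) : 0 ≤ 1 + sqw a * sqw b := by
  rcases sqw_cases a with h | h <;> rcases sqw_cases b with h' | h' <;> rw [h, h'] <;> norm_num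

lemma fac_le (a b : ℝ) : 1 + sqw a * sqw b ≤ 2 := by
  rcases sqw_cases a with h | h <;> rcases sqw_cases b with h' | h' <;> rw [h, h'] <;> norm_num

lemma dens_nonneg (p q K : ℕ) (x y : ℝ) : 0 ≤ dens p q K x y :=
  Finset.prod_nonneg fun _ _ => fac_nonneg _ _

lemma dens_succ (p q K : ℕ) (x y : ℝ) :
    dens p q (K+1) x y = dens p q K x y +
      dens p q K x y * sqw ((p:ℝ) ^ (K+1) * x) * sqw ((q:ℝ) ^ (K+1) * y) := by
  unfold dens; rw [Finset.prod_range_succ]; ring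

lemma dens_zero (p q : ℕ) (x y : ℝ) : dens p q 0 x y = 1 := by simp [dens]

lemma dens_add_le (p q j d : ℕ) (x y : ℝ) : dens p q (j + d) x y ≤ 2 ^ d * dens p q j x y := by
  induction d with
  | zero => simp
  | succ d ih =>
    have h1 : dens p q (j + (d+1)) x y = dens p q (j+d) x y *
        (1 + sqw ((p:ℝ) ^ (j+d+1) * x) * sqw ((q:ℝ) ^ (j+d+1) * y)) := by
      unfold dens; rw [← add_assoc, Finset.prod_range_succ]
    rw [h1, pow_succ (2:ℝ)]
    have h2 := fac_le ((p:ℝ) ^ (j+d+1) * x) ((q:ℝ) ^ (j+d+1) * y)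
    have h3 := dens_nonneg p q (j+d) x y
    have h4 := dens_nonneg p q j x y
    nlinarith

lemma dens_le (p q K : ℕ) (x y : ℝ) : dens p q K x y ≤ 2 ^ K := by
  have := dens_add_le p q 0 K x y
  simpa [dens_zero] using this

lemma dens_swap (p q K : ℕ) (x y : ℝ) : dens p q K x y = dens q p K y x := by
  unfold dens; refine Finset.prod_congr rfl fun k _ => ?_; ring

lemma measurable_dens (p q K : ℕ) {α : Type} [MeasurableSpace α] {f g : α → ℝ}
    (hf : Measurable f) (hg : Measurable g) : Measurable fun t => dens p q K (f t) (g t) := by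
  unfold dens
  refine Finset.measurable_prod _ fun k _ => ?_
  exact measurable_const.add ((measurable_sqw.comp (measurable_const.mul hf)).mul
    (measurable_sqw.comp (measurable_const.mul hg)))

lemma floor_pow_congr {p : ℕ} (hp : 0 < p) {K k : ℕ} (hk : k ≤ K) {x x' : ℝ}
    (h : ⌊(p:ℝ) ^ K * x⌋ = ⌊(p:ℝ) ^ K * x'⌋) : ⌊(p:ℝ) ^ k * x⌋ = ⌊(p:ℝ) ^ k * x'⌋ := by
  have hp' : (0:ℝ) < p := by exact_mod_cast hp
  have e : ∀ z : ℝ, (p:ℝ) ^ k * z = ((p:ℝ) ^ K * z) / ((p ^ (K - k) : ℕ) : ℝ) := by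
    intro z
    obtain ⟨d, rfl⟩ := Nat.exists_eq_add_of_le hk
    simp only [Nat.add_sub_cancel_left, Nat.cast_pow, pow_add]
    field_simp
  rw [e x, e x', Int.floor_div_natCast, Int.floor_div_natCast, h]

lemma dens_congr {p q : ℕ} (hp : 0 < p) (hq : 0 < q) (K : ℕ) {x x' y y' : ℝ}
    (hx : ⌊(p:ℝ) ^ K * x⌋ = ⌊(p:ℝ) ^ K * x'⌋) (hy : ⌊(q:ℝ) ^ K * y⌋ = ⌊(q:ℝ) ^ K * y'⌋) :
    dens p q K x y = dens p q K x' y' := by
  unfold dens
  refine Finset.prod_congr rfl fun k hk => ?_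
  have hk' : k + 1 ≤ K := Finset.mem_range.mp hk
  rw [sqw_congr (floor_pow_congr hp hk' hx), sqw_congr (floor_pow_congr hq hk' hy)]

/-- bounded measurable functions are interval integrable -/
lemma ii_of_bdd {f : ℝ → ℝ} (hf : Measurable f) {C : ℝ} (hC : ∀ x, |f x| ≤ C) (a b : ℝ) :
    IntervalIntegrable f volume a b := by
  refine (intervalIntegrable_const (c := C)).mono_fun' hf.aestronglyMeasurable ?_
  exact Filter.Eventually.of_forall fun x => by simpa [Real.norm_eq_abs] using hC x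

lemma int_congr_Ioo {f g : ℝ → ℝ} {a b : ℝ} (hab : a ≤ b) (h : ∀ x ∈ Ioo a b, f x = g x) :
    ∫ x in a..b, f x = ∫ x in a..b, g x := by
  rw [intervalIntegral.integral_of_le hab, intervalIntegral.integral_of_le hab,
    integral_Ioc_eq_integral_Ioo, integral_Ioc_eq_integral_Ioo]
  exact setIntegral_congr_fun measurableSet_Ioo h

section cancel
variable {ψ : ℝ → ℝ} (hm : Measurable ψ) {C : ℝ} (hC : ∀ z, |ψ z| ≤ C)
  (hψ : ∀ z z' : ℝ, ⌊z / 2⌋ = ⌊z' / 2⌋ → ψ z = ψ z')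
include hm hC hψ

lemma ii_psi (a b : ℝ) : IntervalIntegrable (fun z => ψ z * sqw z) volume a b :=
  ii_of_bdd (f := fun z => ψ z * sqw z) (hm.mul measurable_sqw) (C := C)
    (fun z => by rw [abs_mul, abs_sqw, mul_one]; exact hC z) a b

lemma cancel_cell (k : ℤ) : ∫ z in (2 * (k:ℝ))..(2 * (k:ℝ) + 2), ψ z * sqw z = 0 := by
  rw [← intervalIntegral.integral_add_adjacent_intervals (b := 2 * (k:ℝ) + 1)
    (ii_psi hm hC hψ _ _) (ii_psi hm hC hψ _ _)]
  have h0 : ⌊(2 * (k:ℝ)) / 2⌋ = k := by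
    rw [show (2 * (k:ℝ)) / 2 = k by ring, Int.floor_intCast]
  have h1 : ∫ z in (2 * (k:ℝ))..(2 * (k:ℝ) + 1), ψ z * sqw z =
      ∫ z in (2 * (k:ℝ))..(2 * (k:ℝ) + 1), ψ (2 * (k:ℝ)) := by
    refine int_congr_Ioo (by linarith) fun z hz => ?_
    have hf : ⌊z⌋ = 2 * k := by
      rw [Int.floor_eq_iff]; push_cast; constructor <;> linarith [hz.1, hz.2]
    have hf2 : ⌊z / 2⌋ = k := by
      rw [Int.floor_eq_iff]; constructor <;> linarith [hz.1, hz.2]
    have : sqw z = 1 := by unfold sqw; rw [hf]; simp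
    rw [this, hψ z (2 * (k:ℝ)) (by rw [hf2, h0]), mul_one]
  have h2 : ∫ z in (2 * (k:ℝ) + 1)..(2 * (k:ℝ) + 2), ψ z * sqw z =
      ∫ z in (2 * (k:ℝ) + 1)..(2 * (k:ℝ) + 2), - ψ (2 * (k:ℝ)) := by
    refine int_congr_Ioo (by linarith) fun z hz => ?_
    have hf : ⌊z⌋ = 2 * k + 1 := by
      rw [Int.floor_eq_iff]; push_cast; constructor <;> linarith [hz.1, hz.2]
    have hf2 : ⌊z / 2⌋ = k := by
      rw [Int.floor_eq_iff]; constructor <;> linarith [hz.1, hz.2]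
    have : sqw z = -1 := by unfold sqw; rw [hf]; simp
    rw [this, hψ z (2 * (k:ℝ)) (by rw [hf2, h0])]; ring
  rw [h1, h2]; simp; ring

lemma cancel_even (k : ℤ) : ∫ z in (0:ℝ)..(2 * (k:ℝ)), ψ z * sqw z = 0 := by
  induction k using Int.induction_on with
  | zero => simp
  | succ i ih =>
    rw [← intervalIntegral.integral_add_adjacent_intervals (b := 2 * ((i:ℤ):ℝ))
      (ii_psi hm hC hψ _ _) (ii_psi hm hC hψ _ _), ih]
    have := cancel_cell hm hC hψ (i:ℤ)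
    rw [show (2:ℝ) * (((i:ℤ) + 1 : ℤ) : ℝ) = 2 * ((i:ℤ):ℝ) + 2 by push_cast; ring, this]; simp
  | pred i ih =>
    have h := intervalIntegral.integral_add_adjacent_intervals (a := 0)
      (b := 2 * ((-(i:ℤ) - 1 : ℤ):ℝ)) (c := 2 * ((-(i:ℤ) : ℤ):ℝ))
      (ii_psi hm hC hψ _ _) (ii_psi hm hC hψ _ _)
    have := cancel_cell hm hC hψ (-(i:ℤ) - 1)
    rw [show (2:ℝ) * ((-(i:ℤ) - 1 : ℤ) : ℝ) + 2 = 2 * ((-(i:ℤ) : ℤ):ℝ) by push_cast; ring] at this
    rw [this, ih] at h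
    linarith

lemma cancel_prim (w : ℝ) : |∫ z in (0:ℝ)..w, ψ z * sqw z| ≤ 2 * |ψ w| := by
  set k : ℤ := ⌊w / 2⌋ with hk
  have hk1 : (k:ℝ) ≤ w / 2 := Int.floor_le _
  have hk2 : w / 2 < k + 1 := Int.lt_floor_add_one _
  rw [← intervalIntegral.integral_add_adjacent_intervals (b := 2 * (k:ℝ))
      (ii_psi hm hC hψ _ _) (ii_psi hm hC hψ _ _), cancel_even hm hC hψ k, zero_add]
  have h := intervalIntegral.norm_integral_le_of_norm_le_const (a := 2 * (k:ℝ)) (b := w)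
    (C := |ψ w|) (f := fun z => ψ z * sqw z) (by
      intro z hz
      rw [uIoc_of_le (by linarith)] at hz
      have hf2 : ⌊z / 2⌋ = k := by
        rw [Int.floor_eq_iff]; constructor <;> linarith [hz.1, hz.2]
      rw [Real.norm_eq_abs, abs_mul, abs_sqw, mul_one, hψ z w (by rw [hf2])])
  rw [Real.norm_eq_abs] at h
  have h3 : |w - 2 * (k:ℝ)| ≤ 2 := by rw [abs_le]; constructor <;> linarith
  have h4 := abs_nonneg (ψ w)
  nlinarith

lemma cancel_main (α β : ℝ) : |∫ z in α..β, ψ z * sqw z| ≤ 2 * (|ψ α| + |ψ β|) := by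
  have h := intervalIntegral.integral_interval_sub_left (a := 0) (b := β) (c := α)
    (ii_psi hm hC hψ _ _) (ii_psi hm hC hψ _ _)
  rw [← h]
  have h1 := cancel_prim hm hC hψ α
  have h2 := cancel_prim hm hC hψ β
  have := abs_sub (∫ z in (0:ℝ)..β, ψ z * sqw z) (∫ z in (0:ℝ)..α, ψ z * sqw z)
  linarith

end cancel

end Pool.Agent.H522Z.BM
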