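import Mathlib

set_option autoImplicit false

open MeasureTheory

namespace Pool.Agent.H522Z.BM

/-- The Euclidean plane. -/
abbrev Plane : Type := EuclideanSpace ℝ (Fin 2)

/-- The affine contraction `S_(i,j)(x,y) = ((x+i)/m, (y+j)/n)`. -/
noncomputable def cmap (m n : ℕ) (d : ℕ × ℕ) (p : Plane) : Plane :=
  !₂[(p 0 + (d.1 : ℝ)) / (m : ℝ), (p 1 + (d.2 : ℝ)) / (n : ℝ)]

/-- `F` is the carpet `F(m,n,D)`: nonempty, compact, and `F = ⋃_{d ∈ D} S_d(F)`. -/
def IsCarpet (m n : ℕ) (D : Finset (ℕ × ℕ)) (F : Set Plane) : Prop :=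
  F.Nonempty ∧ IsCompact F ∧ F = ⋃ d ∈ D, cmap m n d '' F

/-- The open `ε`-neighbourhood of the segment `[a,b]`. -/
def tube (a b : Plane) (ε : ℝ) : Set Plane := Metric.thickening ε (segment ℝ a b)

/-- `E` is tube null, the tubes being neighbourhoods of segments of length at least `L`:
for every `δ > 0` some family of such tubes covers `E` and has total area `< δ`. -/
def TubeNull (L : ℝ) (E : Set Plane) : Prop :=
  ∀ δ : ENNReal, 0 < δ → ∃ (ι : Type) (a b : ι → Plane) (ε : ι → ℝ),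
    (∀ i, 0 < ε i) ∧ (∀ i, L ≤ dist (a i) (b i)) ∧
    E ⊆ ⋃ i, tube (a i) (b i) (ε i) ∧ ∑' i, volume (tube (a i) (b i) (ε i)) < δ

end Pool.Agent.H522Z.BM
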