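import Pool.Agent.H522Z.BM.Step2

set_option autoImplicit false

open MeasureTheory Set

namespace Pool.Agent.H522Z.BM

lemma int_flip (h : ℝ → ℝ → ℝ) (u a v b : ℝ) :
    ∫ t in (0:ℝ)..1, h (u * t + a) (v * t + b) =
      ∫ t in (0:ℝ)..1, h ((-u) * t + (u + a)) ((-v) * t + (v + b)) := by
  have e := intervalIntegral.integral_comp_sub_left (a := 0) (b := 1)
    (fun t => h (u * t + a) (v * t + b)) 1
  rw [sub_zero, sub_self] at e
  rw [← e]
  congr 1; funext t; congr 1 <;> ring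

lemma LB_neg {p q j : ℕ} {u v M : ℝ} (h : LB p q j u v M) : LB p q j (-u) (-v) M := by
  intro a b
  rw [int_flip (dens p q j), neg_neg, neg_neg]
  exact h _ _

lemma LB_swap {p q j : ℕ} {u v M : ℝ} (h : LB p q j u v M) : LB q p j v u M := by
  intro a b
  simp_rw [dens_swap q p j]
  exact h _ _

lemma incr_swap (p q K : ℕ) (x y : ℝ) : incr p q K x y = incr q p K y x := by
  unfold incr; rw [dens_swap p q]; ring

lemma step_any {p q : ℕ} (hp : 4 ≤ p) (hq : 4 ≤ q) (hqe : Even q) (K : ℕ) {u v M ρ : ℝ}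
    (hu : u ≠ 0) (hu1 : |u| ≤ 1) (hv : v ≠ 0) (hv1 : |v| ≤ 1) (hmax : |u| = 1 ∨ |v| = 1)
    (hM : 1 ≤ M) (hLB : ∀ j ≤ K, LB p q j u v M) (hρ1 : 1 ≤ ρ)
    (hρ : ρ ^ 2 * ((p:ℝ) ^ (K+1) * |u|) = (q:ℝ) ^ (K+1) * |v|) (a b : ℝ) :
    |∫ t in (0:ℝ)..1, incr p q K (u * t + a) (v * t + b)| ≤ (216 / ρ + 2 / 2 ^ K) * M := by
  rcases lt_or_gt_of_ne hu with h | h
  · rw [int_flip (incr p q K)]
    rw [abs_of_neg h] at hu1 hmax hρ
    exact step_pos hp hq hqe K (by linarith) hu1 (neg_ne_zero.mpr hv) (by rwa [abs_neg])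
      (by rwa [abs_neg]) hM (fun j hj => LB_neg (hLB j hj)) hρ1 (by rwa [abs_neg]) _ _
  · rw [abs_of_pos h] at hu1 hmax hρ
    exact step_pos hp hq hqe K h hu1 hv hv1 hmax hM hLB hρ1 hρ _ _

lemma step_both {p q : ℕ} (hp : 4 ≤ p) (hq : 4 ≤ q) (hpe : Even p) (hqe : Even q) (K : ℕ)
    {u v M ρ : ℝ}
    (hu : u ≠ 0) (hu1 : |u| ≤ 1) (hv : v ≠ 0) (hv1 : |v| ≤ 1) (hmax : |u| = 1 ∨ |v| = 1)
    (hM : 1 ≤ M) (hLB : ∀ j ≤ K, LB p q j u v M) (hρ0 : 0 < ρ)
    (hρ : ρ ^ 2 * ((p:ℝ) ^ (K+1) * |u|) = (q:ℝ) ^ (K+1) * |v|) (a b : ℝ) :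
    |∫ t in (0:ℝ)..1, incr p q K (u * t + a) (v * t + b)| ≤
      (216 * min ρ (1 / ρ) + 2 / 2 ^ K) * M := by
  by_cases h : 1 ≤ ρ
  · have e : min ρ (1 / ρ) = 1 / ρ := by
      refine min_eq_right ?_
      rw [div_le_iff₀ hρ0]; nlinarith
    rw [e, mul_one_div]
    exact step_any hp hq hqe K hu hu1 hv hv1 hmax hM hLB h hρ a b
  · push Not at h
    have h' : 1 ≤ 1 / ρ := by rw [le_div_iff₀ hρ0]; linarith
    have e : min ρ (1 / ρ) = ρ := min_eq_left (by linarith)
    have := step_any hq hp hpe K hv hv1 hu hu1 hmax.symm hM (fun j hj => LB_swap (hLB j hj)) h'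
      (by rw [← hρ]; field_simp) b a
    simp_rw [incr_swap q p K] at this
    rw [e]
    rwa [show 216 / (1 / ρ) = 216 * ρ by field_simp] at this

lemma min_le_tele {θ x : ℝ} (hθ : 1 < θ) (hx : 0 < x) :
    min x (1 / x) ≤ 2 * (1 + θ) / (θ - 1) * (θ * x / (1 + θ * x) - x / (1 + x)) := by
  have h1 : 0 < θ - 1 := by linarith
  have h2 : 0 < 1 + θ * x := by positivity
  have e : 2 * (1 + θ) / (θ - 1) * (θ * x / (1 + θ * x) - x / (1 + x)) =
      2 * (1 + θ) * x / ((1 + θ * x) * (1 + x)) := by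
    field_simp; ring
  rw [e, le_div_iff₀ (by positivity)]
  by_cases h : x ≤ 1
  · have : min x (1 / x) ≤ x := min_le_left _ _
    have h3 : (1 + θ * x) * (1 + x) ≤ (1 + θ) * 2 := by
      refine mul_le_mul (by nlinarith) (by linarith) (by linarith) (by linarith)
    calc min x (1 / x) * ((1 + θ * x) * (1 + x)) ≤ x * ((1 + θ) * 2) :=
          mul_le_mul this h3 (by positivity) hx.le
      _ = _ := by ring
  · push Not at h
    have : min x (1 / x) ≤ 1 / x := min_le_right _ _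
    have h3 : (1 + θ * x) * (1 + x) ≤ ((1 + θ) * x) * (2 * x) := by
      refine mul_le_mul (by nlinarith) (by linarith) (by linarith) (by positivity)
    calc min x (1 / x) * ((1 + θ * x) * (1 + x)) ≤ 1 / x * (((1 + θ) * x) * (2 * x)) :=
          mul_le_mul this h3 (by positivity) (by positivity)
      _ = _ := by field_simp

lemma sum_min_le {θ w : ℝ} (hθ : 1 < θ) (hw : 0 < w) (K : ℕ) :
    ∑ k ∈ Finset.range K, min (θ ^ k * w) (1 / (θ ^ k * w)) ≤
      2 * (1 + θ) / (θ - 1) * (θ ^ K * w / (1 + θ ^ K * w)) := by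
  have h1 : 0 < θ - 1 := by linarith
  have hθ0 : 0 < θ := by linarith
  induction K with
  | zero => simp only [Finset.range_zero, Finset.sum_empty]; positivity
  | succ K ih =>
    rw [Finset.sum_range_succ]
    have := min_le_tele hθ (x := θ ^ K * w) (by positivity)
    rw [show θ ^ (K+1) * w = θ * (θ ^ K * w) by ring]
    linarith

lemma sum_geo_le (K : ℕ) : ∑ k ∈ Finset.range K, (2:ℝ) / 2 ^ k ≤ 4 - 4 / 2 ^ K := by
  induction K with
  | zero => simp
  | succ K ih =>
    rw [Finset.sum_range_succ, pow_succ]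
    have : (4:ℝ) / (2 ^ K * 2) = 2 / 2 ^ K := by field_simp; norm_num
    have h2 : (4:ℝ) / 2 ^ K = 2 * (2 / 2 ^ K) := by ring
    linarith

/-- uniform bound on line integrals, nondegenerate directions -/
theorem line_bound {p q : ℕ} (hp : 4 ≤ p) (hpq : p < q) (hpe : Even p) (hqe : Even q) :
    ∃ C : ℝ, 1 ≤ C ∧ ∀ u v : ℝ, u ≠ 0 → |u| ≤ 1 → v ≠ 0 → |v| ≤ 1 → (|u| = 1 ∨ |v| = 1) →
      ∀ K, LB p q K u v C := by
  have hp0 : (0:ℝ) < p := by exact_mod_cast (by omega : 0 < p)
  have hpq' : (p:ℝ) < q := by exact_mod_cast hpq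
  set θ : ℝ := √((q:ℝ) / p) with hθ
  have hθ1 : 1 < θ := by
    rw [hθ, Real.lt_sqrt (by norm_num), one_pow, lt_div_iff₀ hp0]; linarith
  have hθ2 : θ ^ 2 = (q:ℝ) / p := Real.sq_sqrt (by positivity)
  have h1 : 0 < θ - 1 := by linarith
  set c : ℝ := 2 * (1 + θ) / (θ - 1) with hc
  have hc0 : 0 ≤ c := by positivity
  refine ⟨Real.exp (216 * c + 4), Real.one_le_exp (by positivity), ?_⟩
  intro u v hu hu1 hv hv1 hmax
  have hua : 0 < |u| := abs_pos.mpr hu
  have hva : 0 < |v| := abs_pos.mpr hv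
  set w : ℝ := θ * √(|v| / |u|) with hw
  have hw0 : 0 < w := mul_pos (by linarith) (Real.sqrt_pos.mpr (by positivity))
  set e : ℕ → ℝ := fun k => 216 * min (θ ^ k * w) (1 / (θ ^ k * w)) + 2 / 2 ^ k with he
  have he0 : ∀ k, 0 ≤ e k := by
    intro k
    have : 0 < θ ^ k * w := by positivity
    have : 0 ≤ min (θ ^ k * w) (1 / (θ ^ k * w)) := le_min this.le (by positivity)
    simp only [he]; positivity
  have hS : ∀ K, ∑ k ∈ Finset.range K, e k ≤ 216 * c + 4 := by
    intro K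
    simp only [he]
    rw [Finset.sum_add_distrib, ← Finset.mul_sum]
    have a1 := sum_min_le hθ1 hw0 K
    have a2 := sum_geo_le K
    have a3 : θ ^ K * w / (1 + θ ^ K * w) ≤ 1 := by
      rw [div_le_one (by positivity)]; linarith
    have a4 : (0:ℝ) ≤ 4 / 2 ^ K := by positivity
    have a5 : c * (θ ^ K * w / (1 + θ ^ K * w)) ≤ c := mul_le_of_le_one_right hc0 a3
    linarith
  have main : ∀ K, ∀ j ≤ K, LB p q j u v (Real.exp (∑ k ∈ Finset.range K, e k)) := by
    intro K
    induction K with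
    | zero =>
      intro j hj a b
      obtain rfl : j = 0 := by omega
      simp [dens_zero]
    | succ K ih =>
      have hmono : Real.exp (∑ k ∈ Finset.range K, e k) ≤
          Real.exp (∑ k ∈ Finset.range (K+1), e k) := by
        rw [Finset.sum_range_succ]; exact Real.exp_le_exp.mpr (by linarith [he0 K])
      intro j hj
      by_cases hjK : j ≤ K
      · exact fun a b => (ih j hjK a b).trans hmono
      · obtain rfl : j = K + 1 := by omega
        intro a b
        have hM : 1 ≤ Real.exp (∑ k ∈ Finset.range K, e k) :=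
          Real.one_le_exp (Finset.sum_nonneg fun k _ => he0 k)
        have hs := step_both hp (by omega) hpe hqe K hu hu1 hv hv1 hmax hM ih
          (ρ := θ ^ K * w) (by positivity) (by
            have e1 : (θ ^ K * w) ^ 2 = (θ ^ 2) ^ (K+1) * (|v| / |u|) := by
              have e0 : (√(|v| / |u|)) ^ 2 = |v| / |u| := Real.sq_sqrt (by positivity)
              rw [hw, mul_pow, mul_pow, e0]; ring
            rw [e1, hθ2, div_pow]; field_simp) a b
        have e2 : ∫ t in (0:ℝ)..1, dens p q (K+1) (u * t + a) (v * t + b) =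
            (∫ t in (0:ℝ)..1, dens p q K (u * t + a) (v * t + b)) +
              ∫ t in (0:ℝ)..1, incr p q K (u * t + a) (v * t + b) := by
          rw [← intervalIntegral.integral_add (ii_dens ..) (ii_incr ..)]
          simp_rw [dens_succ]; rfl
        rw [e2, Finset.sum_range_succ, Real.exp_add]
        have a1 := ih K le_rfl a b
        have a2 := le_abs_self (∫ t in (0:ℝ)..1, incr p q K (u * t + a) (v * t + b))
        have a3 := Real.add_one_le_exp (e K)
        have a4 : (216 * min (θ ^ K * w) (1 / (θ ^ K * w)) + 2 / 2 ^ K) = e K := rfl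
        rw [a4] at hs
        nlinarith
  intro K a b
  exact (main K K le_rfl a b).trans (Real.exp_le_exp.mpr (hS K))

/-- exact marginal -/
lemma marg {p q : ℕ} (hp : 0 < p) (hq : 0 < q) (hqe : Even q) (K : ℕ) (x : ℝ) :
    ∫ t in (0:ℝ)..1, dens p q K x t = 1 := by
  have hq' : (0:ℝ) < q := by exact_mod_cast hq
  induction K with
  | zero => simp [dens_zero]
  | succ K ih =>
    have e2 : ∫ t in (0:ℝ)..1, dens p q (K+1) x t =
        (∫ t in (0:ℝ)..1, dens p q K x t) + ∫ t in (0:ℝ)..1, incr p q K x t := by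
      have i1 := ii_dens p q K 0 x 1 0 0 1
      have i2 := ii_incr p q K 0 x 1 0 0 1
      simp only [zero_mul, zero_add, one_mul, add_zero] at i1 i2
      rw [← intervalIntegral.integral_add i1 i2]
      simp_rw [dens_succ]; rfl
    rw [e2, ih]
    set Q : ℝ := (q:ℝ) ^ (K+1) with hQ
    have hQ0 : 0 < Q := by positivity
    set c := sqw ((p:ℝ) ^ (K+1) * x) with hc
    set ψ : ℝ → ℝ := fun z => dens p q K x (z / Q) * c with hψ
    have hm : Measurable ψ :=
      (measurable_dens p q K measurable_const (measurable_id.div_const Q)).mul_const c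
    have hC : ∀ z, |ψ z| ≤ 2 ^ K := by
      intro z
      simp only [hψ, abs_mul, abs_of_nonneg (dens_nonneg p q K x (z / Q)), hc, abs_sqw, mul_one]
      exact dens_le _ _ _ _ _
    obtain ⟨r, hr⟩ := hqe
    have hr0 : (r:ℝ) ≠ 0 := by
      have : r ≠ 0 := by omega
      exact_mod_cast this
    have hqr : (q:ℝ) = 2 * r := by rw [hr]; push_cast; ring
    have hfl : ∀ z z' : ℝ, ⌊z / 2⌋ = ⌊z' / 2⌋ → ψ z = ψ z' := by
      intro z z' h
      have e : ∀ w : ℝ, (q:ℝ) ^ K * (w / Q) = (w / 2) / (r:ℝ) := by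
        intro w
        rw [hQ, pow_succ]
        field_simp
        rw [hqr]; ring
      simp only [hψ]
      rw [dens_congr hp hq K rfl (y := z / Q) (y' := z' / Q)
        (by rw [e, e, Int.floor_div_natCast, Int.floor_div_natCast, h])]
    have h1 : ∀ t, incr p q K x t = (fun z => ψ z * sqw z) (Q * t) := by
      intro t
      simp only [hψ, incr]
      rw [show (Q * t) / Q = t by field_simp]
    simp_rw [h1]
    rw [intervalIntegral.integral_comp_mul_left (fun z => ψ z * sqw z) hQ0.ne', mul_zero, mul_one]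
    have h2 := cancel_even hm hC hfl ((q ^ K * r : ℕ) : ℤ)
    rw [show (2:ℝ) * (((q ^ K * r : ℕ) : ℤ) : ℝ) = Q by
      rw [hQ, pow_succ, hqr]; push_cast; rw [hqr]; ring] at h2
    rw [h2]; simp

/-- uniform bound for graphs over either axis -/
theorem graph_bound {p q : ℕ} (hp : 4 ≤ p) (hpq : p < q) (hpe : Even p) (hqe : Even q) :
    ∃ C : ℝ, 1 ≤ C ∧ ∀ s : ℝ, |s| ≤ 1 → ∀ (K : ℕ) (c : ℝ),
      (∫ t in (0:ℝ)..1, dens p q K t (s * t + c) ≤ C) ∧
      (∫ t in (0:ℝ)..1, dens p q K (s * t + c) t ≤ C) := by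
  obtain ⟨C, hC1, hC⟩ := line_bound hp hpq hpe hqe
  refine ⟨C, hC1, fun s hs K c => ?_⟩
  by_cases h0 : s = 0
  · subst h0
    simp only [zero_mul, zero_add]
    constructor
    · simp_rw [dens_swap p q K]
      rw [marg (by omega) (by omega) hpe]; exact hC1
    · rw [marg (by omega) (by omega) hqe]; exact hC1
  · constructor
    · simpa using hC 1 s one_ne_zero (by simp) h0 hs (Or.inl (by simp)) K 0 c
    · simpa using hC s 1 h0 hs one_ne_zero (by simp) (Or.inr (by simp)) K c 0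

end Pool.Agent.H522Z.BM
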