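import Pool.Agent.H522Z.BM.Strip
import Pool.Agent.H522Z.BM.Defs

set_option autoImplicit false

open MeasureTheory Set

namespace Pool.Agent.H522Z.BM

/-- coordinates -/
noncomputable def emb (z : ℝ × ℝ) : Plane := !₂[z.1, z.2]

@[simp] lemma emb0 (z : ℝ × ℝ) : emb z 0 = z.1 := rfl
@[simp] lemma emb1 (z : ℝ × ℝ) : emb z 1 = z.2 := rfl

lemma mp_emb : MeasurePreserving emb volume volume := by
  have h := (PiLp.volume_preserving_toLp (Fin 2)).comp (volume_preserving_finTwoArrow ℝ).symm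
  exact h

lemma continuous_emb : Continuous emb := by
  unfold emb
  fun_prop

lemma plane_ext {a b : Plane} (h0 : a 0 = b 0) (h1 : a 1 = b 1) : a = b := by
  ext i; fin_cases i
  · exact h0
  · exact h1

lemma dist_le_sum (a b : Plane) : dist a b ≤ |a 0 - b 0| + |a 1 - b 1| := by
  rw [EuclideanSpace.dist_eq, Fin.sum_univ_two, Real.dist_eq, Real.dist_eq,
    Real.sqrt_le_left (by positivity)]
  have := abs_nonneg (a 0 - b 0)
  have := abs_nonneg (a 1 - b 1)
  nlinarith

lemma coord_le_dist (a b : Plane) (i : Fin 2) : |a i - b i| ≤ dist a b := by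
  have := PiLp.dist_apply_le a b i
  rwa [Real.dist_eq] at this

lemma isOpen_tube (a b : Plane) (ε : ℝ) : IsOpen (tube a b ε) := Metric.isOpen_thickening

/-- geometry of a tube relative to a pair of coordinates `i, j` -/
lemma tube_geom (a b : Plane) {ε : ℝ} (i j : Fin 2) (hij : ∀ p q : Plane, p i = q i →
      dist p q = |p j - q j|) (hd : |b j - a j| ≤ |b i - a i|) (hne : b i - a i ≠ 0) :
    ∃ s c : ℝ, |s| ≤ 1 ∧ (∀ p ∈ tube a b ε, |p j - (s * p i + c)| < 2 * ε) ∧
      ∀ p : Plane, p i ∈ Ioo (min (a i) (b i)) (max (a i) (b i)) →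
        |p j - (s * p i + c)| < ε → p ∈ tube a b ε := by
  have hpos : 0 < |b i - a i| := abs_pos.mpr hne
  set s : ℝ := (b j - a j) / (b i - a i) with hs
  have hs1 : |s| ≤ 1 := by rw [hs, abs_div, div_le_one hpos]; exact hd
  refine ⟨s, a j - s * a i, hs1, ?_, ?_⟩
  · intro p hp
    obtain ⟨z, hz, hpz⟩ := Metric.mem_thickening_iff.mp hp
    rw [segment_eq_image'] at hz
    obtain ⟨t, -, rfl⟩ := hz
    have h1 := coord_le_dist p (a + t • (b - a)) i
    have h2 := coord_le_dist p (a + t • (b - a)) j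
    simp only [PiLp.add_apply, PiLp.smul_apply, PiLp.sub_apply, smul_eq_mul] at h1 h2
    have e : p j - (s * p i + (a j - s * a i)) =
        (p j - (a j + t * (b j - a j))) - s * (p i - (a i + t * (b i - a i))) := by
      rw [hs]; field_simp; ring
    rw [e]
    have h3 := abs_sub (p j - (a j + t * (b j - a j))) (s * (p i - (a i + t * (b i - a i))))
    rw [abs_mul] at h3
    have h4 : |s| * |p i - (a i + t * (b i - a i))| ≤ |p i - (a i + t * (b i - a i))| :=
      mul_le_of_le_one_left (abs_nonneg _) hs1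
    linarith
  · intro p hp hp2
    refine Metric.mem_thickening_iff.mpr ⟨a + ((p i - a i) / (b i - a i)) • (b - a), ?_, ?_⟩
    · rw [segment_eq_image']
      refine ⟨(p i - a i) / (b i - a i), ?_, rfl⟩
      rcases lt_or_gt_of_ne hne with h | h
      · rw [min_eq_right (by linarith), max_eq_left (by linarith)] at hp
        constructor
        · exact div_nonneg_of_nonpos (by linarith [hp.2]) h.le
        · rw [div_le_one_of_neg h]; linarith [hp.1]
      · rw [min_eq_left (by linarith), max_eq_right (by linarith)] at hp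
        constructor
        · exact div_nonneg (by linarith [hp.1]) h.le
        · rw [div_le_one h]; linarith [hp.2]
    · rw [hij]
      · simp only [PiLp.add_apply, PiLp.smul_apply, PiLp.sub_apply, smul_eq_mul]
        convert hp2 using 2
        rw [hs]; field_simp; ring
      · simp only [PiLp.add_apply, PiLp.smul_apply, PiLp.sub_apply, smul_eq_mul]
        field_simp; ring

lemma hij01 (p q : Plane) (h : p 0 = q 0) : dist p q = |p 1 - q 1| := by
  rw [EuclideanSpace.dist_eq, Fin.sum_univ_two, h, dist_self, Real.dist_eq]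
  simp [Real.sqrt_sq_eq_abs]

lemma hij10 (p q : Plane) (h : p 1 = q 1) : dist p q = |p 0 - q 0| := by
  rw [EuclideanSpace.dist_eq, Fin.sum_univ_two, h, dist_self, Real.dist_eq]
  simp [Real.sqrt_sq_eq_abs]

lemma ofReal_key {C L ε w : ℝ} (hC : 1 ≤ C) (hL : 0 < L) (hε : 0 < ε) (hw : L ≤ 2 * w) :
    ENNReal.ofReal C * ENNReal.ofReal (2 * (2 * ε)) ≤
      ENNReal.ofReal (4 * C / L) * (ENNReal.ofReal (2 * ε) * ENNReal.ofReal w) := by
  rw [← ENNReal.ofReal_mul (by linarith), ← ENNReal.ofReal_mul (by linarith),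
    ← ENNReal.ofReal_mul (by positivity)]
  refine ENNReal.ofReal_le_ofReal ?_
  rw [div_mul_eq_mul_div, le_div_iff₀ hL]
  have : 0 < C * ε := by positivity
  nlinarith

theorem tube_bound {p q : ℕ} (hp : 4 ≤ p) (hpq : p < q) (hpe : Even p) (hqe : Even q) :
    ∃ C : ℝ, 1 ≤ C ∧ ∀ L : ℝ, 0 < L → ∀ (a b : Plane) (ε : ℝ), 0 < ε → L ≤ dist a b → ∀ K : ℕ,
      wm (dens p q K) (emb ⁻¹' tube a b ε) ≤
        ENNReal.ofReal (4 * C / L) * volume (tube a b ε) := by
  obtain ⟨C, hC1, hC⟩ := strip_bound hp hpq hpe hqe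
  refine ⟨C, hC1, fun L hL a b ε hε hab K => ?_⟩
  have hds := dist_le_sum a b
  rw [abs_sub_comm (a 0), abs_sub_comm (a 1)] at hds
  rw [← mp_emb.measure_preimage (isOpen_tube a b ε).measurableSet.nullMeasurableSet]
  by_cases h : |b 1 - a 1| ≤ |b 0 - a 0|
  · have hne : b 0 - a 0 ≠ 0 := by
      intro h0; rw [h0, abs_zero] at h hds; linarith
    obtain ⟨s, c, hs, h1, h2⟩ := tube_geom a b (ε := ε) 0 1 hij01 h hne
    have a1 : emb ⁻¹' tube a b ε ⊆ strip s c (2 * ε) := fun z hz => h1 _ hz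
    have a2 : para (min (a 0) (b 0)) (max (a 0) (b 0)) s c ε ⊆ emb ⁻¹' tube a b ε :=
      fun z hz => h2 (emb z) hz.1 hz.2
    refine (measure_mono a1).trans ((hC s hs K c (2 * ε)).1.trans ?_)
    refine le_trans ?_ (mul_le_mul_right (measure_mono a2) _)
    rw [vol_para, max_sub_min_eq_abs']
    refine ofReal_key hC1 hL hε ?_
    rw [abs_sub_comm]; linarith
  · push Not at h
    have hne : b 1 - a 1 ≠ 0 := by
      intro h0; rw [h0, abs_zero] at h; linarith [abs_nonneg (b 0 - a 0)]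
    obtain ⟨s, c, hs, h1, h2⟩ := tube_geom a b (ε := ε) 1 0 hij10 h.le hne
    have a1 : emb ⁻¹' tube a b ε ⊆ Prod.swap ⁻¹' strip s c (2 * ε) := fun z hz => h1 _ hz
    have a2 : Prod.swap ⁻¹' para (min (a 1) (b 1)) (max (a 1) (b 1)) s c ε ⊆
        emb ⁻¹' tube a b ε := fun z hz => h2 (emb z) hz.1 hz.2
    refine (measure_mono a1).trans ((hC s hs K c (2 * ε)).2.trans ?_)
    refine le_trans ?_ (mul_le_mul_right (measure_mono a2) _)
    have hsw : MeasurePreserving (Prod.swap : ℝ × ℝ → ℝ × ℝ) volume volume :=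
      Measure.measurePreserving_swap
    rw [hsw.measure_preimage (measurableSet_para ..).nullMeasurableSet, vol_para,
      max_sub_min_eq_abs']
    refine ofReal_key hC1 hL hε ?_
    rw [abs_sub_comm]; linarith

/-- the checkerboard digit set -/
def checker (m n : ℕ) : Finset (ℕ × ℕ) :=
  (Finset.range m ×ˢ Finset.range n).filter fun d => Even (d.1 + d.2)

/-- approximating stages -/
def stage (m n : ℕ) (D : Finset (ℕ × ℕ)) : ℕ → Set Plane
  | 0 => emb '' (Icc 0 1 ×ˢ Icc 0 1)
  | K + 1 => ⋃ d ∈ D, cmap m n d '' stage m n D K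

lemma continuous_cmap (m n : ℕ) (d : ℕ × ℕ) : Continuous (cmap m n d) := by
  unfold cmap
  fun_prop

lemma cmap0 (m n : ℕ) (d : ℕ × ℕ) (p : Plane) : cmap m n d p 0 = (p 0 + d.1) / m := rfl
lemma cmap1 (m n : ℕ) (d : ℕ × ℕ) (p : Plane) : cmap m n d p 1 = (p 1 + d.2) / n := rfl

lemma cmap_inj {m n : ℕ} (hm : 0 < m) (hn : 0 < n) (d : ℕ × ℕ) :
    Function.Injective (cmap m n d) := by
  intro p q h
  have hm' : (m:ℝ) ≠ 0 := by exact_mod_cast hm.ne'
  have hn' : (n:ℝ) ≠ 0 := by exact_mod_cast hn.ne'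
  have h0 := congrArg (fun r : Plane => r 0) h
  have h1 := congrArg (fun r : Plane => r 1) h
  simp only [cmap0, cmap1] at h0 h1
  rw [div_left_inj' hm', add_left_inj] at h0
  rw [div_left_inj' hn', add_left_inj] at h1
  exact plane_ext h0 h1

lemma stage_compact (m n : ℕ) (D : Finset (ℕ × ℕ)) (K : ℕ) : IsCompact (stage m n D K) := by
  induction K with
  | zero => exact (isCompact_Icc.prod isCompact_Icc).image continuous_emb
  | succ K ih => exact D.isCompact_biUnion fun d _ => ih.image (continuous_cmap m n d)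

lemma stage_nonempty (m n : ℕ) {D : Finset (ℕ × ℕ)} (hD : D.Nonempty) (K : ℕ) :
    (stage m n D K).Nonempty := by
  induction K with
  | zero => exact ⟨emb (0, 0), (0, 0), by simp, rfl⟩
  | succ K ih =>
    obtain ⟨d, hd⟩ := hD
    obtain ⟨p, hp⟩ := ih
    exact ⟨cmap m n d p, mem_biUnion hd ⟨p, hp, rfl⟩⟩

lemma stage_succ_subset {m n : ℕ} {D : Finset (ℕ × ℕ)}
    (hD : D ⊆ Finset.range m ×ˢ Finset.range n) (K : ℕ) :
    stage m n D (K+1) ⊆ stage m n D K := by
  induction K with
  | zero =>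
    intro p hp
    obtain ⟨d, hd, _, ⟨z, hz, rfl⟩, rfl⟩ := mem_iUnion₂.mp hp
    have hd' := hD hd
    rw [Finset.mem_product, Finset.mem_range, Finset.mem_range] at hd'
    have h1 : (d.1:ℝ) + 1 ≤ m := by exact_mod_cast hd'.1
    have h2 : (d.2:ℝ) + 1 ≤ n := by exact_mod_cast hd'.2
    have h3 : (0:ℝ) ≤ d.1 := Nat.cast_nonneg _
    have h4 : (0:ℝ) ≤ d.2 := Nat.cast_nonneg _
    refine ⟨((z.1 + d.1) / m, (z.2 + d.2) / n), ⟨⟨?_, ?_⟩, ⟨?_, ?_⟩⟩, rfl⟩
    · exact div_nonneg (by linarith [hz.1.1]) (by linarith)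
    · rw [div_le_one (by linarith)]; linarith [hz.1.2]
    · exact div_nonneg (by linarith [hz.2.1]) (by linarith)
    · rw [div_le_one (by linarith)]; linarith [hz.2.2]
  | succ K ih =>
    exact iUnion₂_mono fun d _ => image_mono ih

lemma carpet_iInter {m n : ℕ} (hm : 0 < m) (hn : 0 < n) {D : Finset (ℕ × ℕ)} (hne : D.Nonempty)
    (hD : D ⊆ Finset.range m ×ˢ Finset.range n) : IsCarpet m n D (⋂ K, stage m n D K) := by
  have hanti : Antitone (stage m n D) := antitone_nat_of_succ_le (stage_succ_subset hD)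
  refine ⟨?_, ?_, ?_⟩
  · exact IsCompact.nonempty_iInter_of_sequence_nonempty_isCompact_isClosed _
      (stage_succ_subset hD) (stage_nonempty m n hne) (stage_compact m n D 0)
      fun K => (stage_compact m n D K).isClosed
  · exact (stage_compact m n D 0).of_isClosed_subset
      (isClosed_iInter fun K => (stage_compact m n D K).isClosed) (iInter_subset _ 0)
  · apply Subset.antisymm
    · intro p hp
      by_contra hcon
      have h1 : ∀ d ∈ D, ∃ K, p ∉ cmap m n d '' stage m n D K := by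
        intro d hd
        by_contra h2
        push Not at h2
        apply hcon
        obtain ⟨z, -, hz⟩ := h2 0
        refine mem_biUnion hd ⟨z, mem_iInter.mpr fun K => ?_, hz⟩
        obtain ⟨z', hz', hz''⟩ := h2 K
        rwa [← cmap_inj hm hn d (hz''.trans hz.symm)]
      choose! k hk using h1
      obtain ⟨d, hd, hpd⟩ := mem_iUnion₂.mp (mem_iInter.mp hp (D.sup k + 1))
      exact hk d hd (image_mono (hanti (Finset.le_sup hd)) hpd)
    · intro p hp
      obtain ⟨d, hd, z, hz, rfl⟩ := mem_iUnion₂.mp hp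
      refine mem_iInter.mpr fun K => stage_succ_subset hD K ?_
      exact mem_biUnion hd ⟨z, mem_iInter.mp hz K, rfl⟩

lemma sqw_add_even (x : ℝ) {k : ℤ} (hk : Even k) : sqw (x + k) = sqw x := by
  unfold sqw
  rw [Int.floor_add_intCast]
  simp only [Int.even_add, hk, iff_true]

lemma dens_succ' {p q : ℕ} (hpe : Even p) (hqe : Even q) (K : ℕ) (x y : ℝ) (i j : ℕ) :
    dens p q (K+1) x y =
      dens p q K (p * x - i) (q * y - j) * (1 + sqw (p * x) * sqw (q * y)) := by
  unfold dens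
  rw [Finset.prod_range_succ']
  simp only [zero_add, pow_one]
  congr 1
  refine Finset.prod_congr rfl fun k _ => ?_
  have e1 : (p:ℝ) ^ (k+1+1) * x = (p:ℝ) ^ (k+1) * (p * x - i) + ((p ^ (k+1) * i : ℕ) : ℤ) := by
    push_cast; ring
  have e2 : (q:ℝ) ^ (k+1+1) * y = (q:ℝ) ^ (k+1) * (q * y - j) + ((q ^ (k+1) * j : ℕ) : ℤ) := by
    push_cast; ring
  rw [e1, e2, sqw_add_even, sqw_add_even]
  · exact (Int.even_coe_nat _).mpr ((hqe.pow_of_ne_zero (by omega)).mul_right _)
  · exact (Int.even_coe_nat _).mpr ((hpe.pow_of_ne_zero (by omega)).mul_right _)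

lemma supp_dens {p q : ℕ} (hp : 0 < p) (hq : 0 < q) (hpe : Even p) (hqe : Even q) (K : ℕ) :
    ∀ x ∈ Ico (0:ℝ) 1, ∀ y ∈ Ico (0:ℝ) 1, dens p q K x y ≠ 0 →
      emb (x, y) ∈ stage p q (checker p q) K := by
  have hp' : (0:ℝ) < p := by exact_mod_cast hp
  have hq' : (0:ℝ) < q := by exact_mod_cast hq
  induction K with
  | zero => exact fun x hx y hy _ => ⟨(x, y), ⟨Ico_subset_Icc_self hx, Ico_subset_Icc_self hy⟩, rfl⟩
  | succ K ih =>
    intro x hx y hy h
    have hx0 : 0 ≤ (p:ℝ) * x := mul_nonneg hp'.le hx.1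
    have hy0 : 0 ≤ (q:ℝ) * y := mul_nonneg hq'.le hy.1
    set i := ⌊(p:ℝ) * x⌋₊ with hi
    set j := ⌊(q:ℝ) * y⌋₊ with hj
    rw [dens_succ' hpe hqe K x y i j] at h
    obtain ⟨h1, h2⟩ := mul_ne_zero_iff.mp h
    have i1 := Nat.floor_le hx0
    have i2 := Nat.lt_floor_add_one ((p:ℝ) * x)
    have j1 := Nat.floor_le hy0
    have j2 := Nat.lt_floor_add_one ((q:ℝ) * y)
    have hmem := ih _ ⟨by linarith, by linarith⟩ _ ⟨by linarith, by linarith⟩ h1
    have hd : (i, j) ∈ checker p q := by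
      simp only [checker, Finset.mem_filter, Finset.mem_product, Finset.mem_range]
      refine ⟨⟨?_, ?_⟩, ?_⟩
      · rw [hi, Nat.floor_lt hx0]; nlinarith [hx.2]
      · rw [hj, Nat.floor_lt hy0]; nlinarith [hy.2]
      · have f1 : ⌊(p:ℝ) * x⌋ = (i:ℤ) := by rw [hi, Int.natCast_floor_eq_floor hx0]
        have f2 : ⌊(q:ℝ) * y⌋ = (j:ℤ) := by rw [hj, Int.natCast_floor_eq_floor hy0]
        unfold sqw at h2
        rw [f1, f2] at h2
        simp only [Int.even_coe_nat] at h2
        rw [Nat.even_add]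
        by_cases a : Even i <;> by_cases b : Even j
        · exact iff_of_true a b
        · rw [if_pos a, if_neg b] at h2; norm_num at h2
        · rw [if_neg a, if_pos b] at h2; norm_num at h2
        · exact iff_of_false a b
    refine mem_biUnion hd ⟨_, hmem, plane_ext ?_ ?_⟩
    · rw [cmap0]; simp only [emb0]; field_simp; ring
    · rw [cmap1]; simp only [emb1]; field_simp; ring

lemma wm_compl {p q : ℕ} (hp : 0 < p) (hq : 0 < q) (hpe : Even p) (hqe : Even q) (K : ℕ) :
    wm (dens p q K) (emb ⁻¹' stage p q (checker p q) K)ᶜ = 0 := by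
  have hS : MeasurableSet (emb ⁻¹' stage p q (checker p q) K)ᶜ :=
    (((stage_compact p q _ K).isClosed.preimage continuous_emb).measurableSet).compl
  unfold wm mI
  rw [withDensity_apply _ hS, Measure.prod_restrict, Measure.restrict_restrict hS]
  refine (setLIntegral_congr_fun (g := fun _ => 0)
    (hS.inter (measurableSet_Ico.prod measurableSet_Ico)) ?_).trans (by simp)
  intro z hz
  by_contra h
  apply hz.1
  refine supp_dens hp hq hpe hqe K z.1 hz.2.1 z.2 hz.2.2 fun h0 => h ?_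
  simp [h0]

theorem main {m n : ℕ} (hm : 4 ≤ m) (hmn : m < n) (hme : Even m) (hne : Even n) :
    ∃ D : Finset (ℕ × ℕ), D.Nonempty ∧ D ⊂ Finset.range m ×ˢ Finset.range n ∧
      ∃ F : Set Plane, IsCarpet m n D F ∧ ∀ L : ℝ, 0 < L → ¬ TubeNull L F := by
  have hm0 : 0 < m := by omega
  have hn0 : 0 < n := by omega
  have hne' : (checker m n).Nonempty := ⟨(0, 0), by simp [checker, hm0, hn0]⟩
  have hsub : checker m n ⊆ Finset.range m ×ˢ Finset.range n := Finset.filter_subset _ _
  refine ⟨checker m n, hne', ?_, _, carpet_iInter hm0 hn0 hne' hsub, fun L hL hT => ?_⟩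
  · refine Finset.ssubset_iff_of_subset hsub |>.mpr ⟨(1, 0), ?_, ?_⟩
    · simp; omega
    · simp [checker]
  obtain ⟨C, hC1, hC⟩ := tube_bound hm hmn hme hne
  obtain ⟨ι, a, b, ε, hε, hab, hcov, hsum⟩ := hT (ENNReal.ofReal (L / (4 * C)))
    (ENNReal.ofReal_pos.mpr (by positivity))
  have hanti : Antitone (stage m n (checker m n)) :=
    antitone_nat_of_succ_le (stage_succ_subset hsub)
  obtain ⟨K, hK⟩ := exists_subset_nhds_of_isCompact' hanti.directed_ge
    (stage_compact m n _) (fun K => (stage_compact m n _ K).isClosed)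
    (U := ⋃ i, tube (a i) (b i) (ε i))
    (fun x hx => (isOpen_iUnion fun i => isOpen_tube _ _ _).mem_nhds (hcov hx))
  obtain ⟨t, ht⟩ := (stage_compact m n _ K).elim_finite_subcover _
    (fun i => isOpen_tube (a i) (b i) (ε i)) hK
  have h1 : wm (dens m n K) univ ≤
      ENNReal.ofReal (4 * C / L) * ∑' i, volume (tube (a i) (b i) (ε i)) := by
    calc wm (dens m n K) univ
        ≤ wm (dens m n K) ((⋃ i ∈ t, emb ⁻¹' tube (a i) (b i) (ε i)) ∪
            (emb ⁻¹' stage m n (checker m n) K)ᶜ) := by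
          refine measure_mono fun z _ => ?_
          by_cases hz : z ∈ emb ⁻¹' stage m n (checker m n) K
          · left
            obtain ⟨i, hi, h⟩ := mem_iUnion₂.mp (ht hz)
            exact mem_biUnion hi h
          · right; exact hz
      _ ≤ wm (dens m n K) (⋃ i ∈ t, emb ⁻¹' tube (a i) (b i) (ε i)) + 0 := by
          rw [← wm_compl hm0 hn0 hme hne K]; exact measure_union_le _ _
      _ ≤ ∑ i ∈ t, wm (dens m n K) (emb ⁻¹' tube (a i) (b i) (ε i)) := by
          rw [add_zero]; exact measure_biUnion_finset_le _ _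
      _ ≤ ∑ i ∈ t, ENNReal.ofReal (4 * C / L) * volume (tube (a i) (b i) (ε i)) :=
          Finset.sum_le_sum fun i _ => hC L hL _ _ _ (hε i) (hab i) K
      _ ≤ _ := by
          rw [← Finset.mul_sum]
          exact mul_le_mul_right (ENNReal.sum_le_tsum t) _
  rw [wm_univ hm0 hn0 hne] at h1
  have h2 : ENNReal.ofReal (4 * C / L) * ∑' i, volume (tube (a i) (b i) (ε i)) <
      ENNReal.ofReal (4 * C / L) * ENNReal.ofReal (L / (4 * C)) :=
    ENNReal.mul_lt_mul_right (ENNReal.ofReal_pos.mpr (by positivity)).ne'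
      ENNReal.ofReal_ne_top hsum
  rw [← ENNReal.ofReal_mul (by positivity),
    show 4 * C / L * (L / (4 * C)) = 1 by field_simp, ENNReal.ofReal_one] at h2
  exact absurd (h1.trans_lt h2) (lt_irrefl _)

end Pool.Agent.H522Z.BM
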