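import Pool.Agent.H522Z.BM.Basic

set_option autoImplicit false

open MeasureTheory Set

namespace Pool.Agent.H522Z.BM

lemma cell_bound {p q : ℕ} (hp : 0 < p) (hq : 0 < q) (hqe : Even q) (K : ℕ) {v : ℝ} (hv : v ≠ 0)
    (b x₀ c : ℝ) (hc : |c| ≤ 1) (α β : ℝ) :
    |∫ t in α..β, dens p q K x₀ (v * t + b) * c * sqw ((q:ℝ) ^ (K+1) * (v * t + b))| ≤
      2 / ((q:ℝ) ^ (K+1) * |v|) * (dens p q K x₀ (v * α + b) + dens p q K x₀ (v * β + b)) := by
  have hq' : (0:ℝ) < q := by exact_mod_cast hq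
  set Q : ℝ := (q:ℝ) ^ (K+1) with hQ
  have hQ0 : 0 < Q := by positivity
  set ψ : ℝ → ℝ := fun z => dens p q K x₀ (z / Q) * c with hψ
  have hm : Measurable ψ :=
    (measurable_dens p q K measurable_const (measurable_id.div_const Q)).mul_const c
  have hb : ∀ z, |ψ z| ≤ dens p q K x₀ (z / Q) := by
    intro z
    simp only [hψ, abs_mul, abs_of_nonneg (dens_nonneg p q K x₀ (z / Q))]
    have := dens_nonneg p q K x₀ (z / Q)
    nlinarith
  have hC : ∀ z, |ψ z| ≤ 2 ^ K := fun z => (hb z).trans (dens_le _ _ _ _ _)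
  have hfl : ∀ z z' : ℝ, ⌊z / 2⌋ = ⌊z' / 2⌋ → ψ z = ψ z' := by
    intro z z' h
    obtain ⟨r, hr⟩ := hqe
    have hr0 : (r:ℝ) ≠ 0 := by
      have : r ≠ 0 := by omega
      exact_mod_cast this
    have e : ∀ w : ℝ, (q:ℝ) ^ K * (w / Q) = (w / 2) / (r:ℝ) := by
      intro w
      have : (q:ℝ) = 2 * r := by rw [hr]; push_cast; ring
      rw [hQ, pow_succ]
      field_simp
      rw [this]; ring
    simp only [hψ]
    rw [dens_congr hp hq K rfl (y := z / Q) (y' := z' / Q)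
      (by rw [e, e, Int.floor_div_natCast, Int.floor_div_natCast, h])]
  have h1 : ∀ t, dens p q K x₀ (v * t + b) * c * sqw (Q * (v * t + b)) =
      (fun z => ψ z * sqw z) ((Q * v) * t + Q * b) := by
    intro t
    simp only [hψ]
    rw [show (Q * v * t + Q * b) / Q = v * t + b by field_simp,
      show Q * v * t + Q * b = Q * (v * t + b) by ring]
  simp_rw [h1]
  rw [intervalIntegral.integral_comp_mul_add (fun z => ψ z * sqw z) (mul_ne_zero hQ0.ne' hv),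
    smul_eq_mul, abs_mul, abs_inv, abs_mul, abs_of_pos hQ0]
  have h2 := cancel_main hm hC hfl (Q * v * α + Q * b) (Q * v * β + Q * b)
  have h3 := hb (Q * v * α + Q * b)
  have h4 := hb (Q * v * β + Q * b)
  rw [show (Q * v * α + Q * b) / Q = v * α + b by field_simp] at h3
  rw [show (Q * v * β + Q * b) / Q = v * β + b by field_simp] at h4
  have hpos : 0 < Q * |v| := mul_pos hQ0 (abs_pos.mpr hv)
  rw [div_eq_mul_inv, mul_comm (2:ℝ), mul_assoc (Q * |v|)⁻¹]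
  exact mul_le_mul_of_nonneg_left (h2.trans (by linarith)) (inv_pos.mpr hpos).le

lemma shift1 {N : ℝ} (hN : 0 < N) {y y' : ℝ} (h : |y - y'| ≤ 1 / N) :
    ∃ e ∈ Finset.Icc (-1:ℤ) 1, ⌊N * y⌋ = ⌊N * (y' + (e:ℝ) / N)⌋ := by
  refine ⟨⌊N * y⌋ - ⌊N * y'⌋, ?_, ?_⟩
  · have h1 : |N * y - N * y'| ≤ 1 := by
      rw [← mul_sub, abs_mul, abs_of_pos hN]
      rw [le_div_iff₀ hN] at h; linarith
    rw [abs_le] at h1
    have a1 := Int.floor_le (N * y)
    have a2 := Int.lt_floor_add_one (N * y)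
    have a3 := Int.floor_le (N * y')
    have a4 := Int.lt_floor_add_one (N * y')
    rw [Finset.mem_Icc]
    constructor
    · have : (-2:ℝ) < ((⌊N * y⌋ - ⌊N * y'⌋ : ℤ) : ℝ) := by push_cast; linarith [h1.1]
      have : (-2:ℤ) < ⌊N * y⌋ - ⌊N * y'⌋ := by exact_mod_cast this
      omega
    · have : ((⌊N * y⌋ - ⌊N * y'⌋ : ℤ) : ℝ) < 2 := by push_cast; linarith [h1.2]
      have : ⌊N * y⌋ - ⌊N * y'⌋ < (2:ℤ) := by exact_mod_cast this
      omega
  · rw [show N * (y' + ((⌊N * y⌋ - ⌊N * y'⌋ : ℤ):ℝ) / N) = N * y' + ((⌊N * y⌋ - ⌊N * y'⌋ : ℤ):ℝ) by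
      field_simp, Int.floor_add_intCast]
    ring

/-- fattened density -/
noncomputable def fat (p q j : ℕ) (x y : ℝ) : ℝ :=
  ∑ e₁ ∈ Finset.Icc (-1:ℤ) 1, ∑ e₂ ∈ Finset.Icc (-1:ℤ) 1,
    dens p q j (x + (e₁:ℝ) / (p:ℝ) ^ j) (y + (e₂:ℝ) / (q:ℝ) ^ j)

lemma fat_nonneg (p q j : ℕ) (x y : ℝ) : 0 ≤ fat p q j x y :=
  Finset.sum_nonneg fun _ _ => Finset.sum_nonneg fun _ _ => dens_nonneg _ _ _ _ _

lemma dens_le_fat {p q : ℕ} (hp : 0 < p) (hq : 0 < q) (j : ℕ) {x x' y y' : ℝ}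
    (hx : |x - x'| ≤ 1 / (p:ℝ) ^ j) (hy : |y - y'| ≤ 1 / (q:ℝ) ^ j) :
    dens p q j x y ≤ fat p q j x' y' := by
  have hp' : (0:ℝ) < p := by exact_mod_cast hp
  have hq' : (0:ℝ) < q := by exact_mod_cast hq
  obtain ⟨e₁, he₁, h₁⟩ := shift1 (by positivity) hx
  obtain ⟨e₂, he₂, h₂⟩ := shift1 (by positivity) hy
  rw [dens_congr hp hq j h₁ h₂]
  unfold fat
  refine le_trans ?_ (Finset.single_le_sum (f := fun e₁ : ℤ => ∑ e₂ ∈ Finset.Icc (-1:ℤ) 1,
    dens p q j (x' + (e₁:ℝ) / (p:ℝ) ^ j) (y' + (e₂:ℝ) / (q:ℝ) ^ j))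
    (fun _ _ => Finset.sum_nonneg fun _ _ => dens_nonneg _ _ _ _ _) he₁)
  exact Finset.single_le_sum (f := fun e₂ : ℤ =>
    dens p q j (x' + (e₁:ℝ) / (p:ℝ) ^ j) (y' + (e₂:ℝ) / (q:ℝ) ^ j))
    (fun _ _ => dens_nonneg _ _ _ _ _) he₂

lemma meas_aff (u a : ℝ) : Measurable fun t : ℝ => u * t + a :=
  (measurable_const.mul measurable_id).add measurable_const

lemma ii_dens (p q j : ℕ) (u a v b s s' : ℝ) :
    IntervalIntegrable (fun t => dens p q j (u * t + a) (v * t + b)) volume s s' :=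
  ii_of_bdd (measurable_dens p q j (meas_aff u a) (meas_aff v b)) (C := 2 ^ j)
    (fun t => by rw [abs_of_nonneg (dens_nonneg _ _ _ _ _)]; exact dens_le _ _ _ _ _) s s'

lemma ii_sum {ι : Type} (S : Finset ι) {f : ι → ℝ → ℝ} {a b : ℝ}
    (h : ∀ i ∈ S, IntervalIntegrable (f i) volume a b) :
    IntervalIntegrable (fun t => ∑ i ∈ S, f i t) volume a b := by
  have e : (fun t => ∑ i ∈ S, f i t) = ∑ i ∈ S, f i := by funext t; simp
  rw [e]; exact IntervalIntegrable.sum S h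

lemma ii_fat (p q j : ℕ) (u a v b s s' : ℝ) :
    IntervalIntegrable (fun t => fat p q j (u * t + a) (v * t + b)) volume s s' := by
  unfold fat
  refine ii_sum _ fun e₁ _ => ii_sum _ fun e₂ _ => ?_
  simpa only [add_assoc] using ii_dens p q j u (a + (e₁:ℝ) / (p:ℝ) ^ j) v (b + (e₂:ℝ) / (q:ℝ) ^ j) s s'

/-- all line integrals in direction `(u,v)` at level `j` are at most `M` -/
def LB (p q j : ℕ) (u v M : ℝ) : Prop :=
  ∀ a b : ℝ, ∫ t in (0:ℝ)..1, dens p q j (u * t + a) (v * t + b) ≤ M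

lemma LB_shift {p q j : ℕ} {u v M : ℝ} (h : LB p q j u v M) (a b s : ℝ) :
    ∫ t in s..(s+1), dens p q j (u * t + a) (v * t + b) ≤ M := by
  have := h (u * s + a) (v * s + b)
  have e := intervalIntegral.integral_comp_add_right (a := 0) (b := 1)
    (fun t => dens p q j (u * t + a) (v * t + b)) s
  rw [zero_add, add_comm 1 s] at e
  rw [← e]
  refine le_of_eq_of_le ?_ this
  congr 1; funext t; congr 1 <;> ring

lemma LB_three {p q j : ℕ} {u v M : ℝ} (h : LB p q j u v M) (a b : ℝ) :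
    ∫ t in (-1:ℝ)..2, dens p q j (u * t + a) (v * t + b) ≤ 3 * M := by
  rw [← intervalIntegral.integral_add_adjacent_intervals (b := 0) (ii_dens ..) (ii_dens ..),
    ← intervalIntegral.integral_add_adjacent_intervals (a := 0) (b := 1) (ii_dens ..) (ii_dens ..)]
  have h1 := LB_shift h a b (-1)
  have h2 := LB_shift h a b 0
  have h3 := LB_shift h a b 1
  norm_num at h1 h2 h3
  linarith

lemma int_fat {p q j : ℕ} {u v M : ℝ} (h : LB p q j u v M) (a b : ℝ) {s s' : ℝ}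
    (hs : -1 ≤ s) (hss : s ≤ s') (hs' : s' ≤ 2) :
    ∫ t in s..s', fat p q j (u * t + a) (v * t + b) ≤ 27 * M := by
  refine le_trans (intervalIntegral.integral_mono_interval hs hss hs'
    (Filter.Eventually.of_forall fun t => fat_nonneg _ _ _ _ _) (ii_fat ..)) ?_
  unfold fat
  rw [intervalIntegral.integral_finsetSum]
  · have : ∀ e₁ ∈ Finset.Icc (-1:ℤ) 1, ∫ t in (-1:ℝ)..2, ∑ e₂ ∈ Finset.Icc (-1:ℤ) 1,
        dens p q j (u * t + a + (e₁:ℝ) / (p:ℝ) ^ j) (v * t + b + (e₂:ℝ) / (q:ℝ) ^ j) ≤ 9 * M := by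
      intro e₁ _
      rw [intervalIntegral.integral_finsetSum]
      · have : ∀ e₂ ∈ Finset.Icc (-1:ℤ) 1, ∫ t in (-1:ℝ)..2,
            dens p q j (u * t + a + (e₁:ℝ) / (p:ℝ) ^ j) (v * t + b + (e₂:ℝ) / (q:ℝ) ^ j)
              ≤ 3 * M := by
          intro e₂ _
          simpa only [add_assoc] using
            LB_three h (a + (e₁:ℝ) / (p:ℝ) ^ j) (b + (e₂:ℝ) / (q:ℝ) ^ j)
        refine (Finset.sum_le_sum this).trans ?_
        simp; linarith
      · intro e₂ _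
        simpa only [add_assoc] using
          ii_dens p q j u (a + (e₁:ℝ) / (p:ℝ) ^ j) v (b + (e₂:ℝ) / (q:ℝ) ^ j) (-1) 2
    refine (Finset.sum_le_sum this).trans ?_
    simp; linarith
  · intro e₁ _
    refine ii_sum _ fun e₂ _ => ?_
    simpa only [add_assoc] using
      ii_dens p q j u (a + (e₁:ℝ) / (p:ℝ) ^ j) v (b + (e₂:ℝ) / (q:ℝ) ^ j) (-1) 2

end Pool.Agent.H522Z.BM
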