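import Pool.Agent.H522Z.BM.Step

set_option autoImplicit false

open MeasureTheory Set

namespace Pool.Agent.H522Z.BM

lemma exists_d {ρ : ℝ} (hρ : 1 ≤ ρ) : ∃ d : ℕ, 1 ≤ d ∧ ρ ^ 2 ≤ 4 ^ d ∧ (2:ℝ) ^ d ≤ 2 * ρ := by
  obtain ⟨n, h1, h2⟩ := exists_nat_pow_near hρ (by norm_num : (1:ℝ) < 2)
  refine ⟨n + 1, by omega, ?_, by rw [pow_succ]; linarith⟩
  have : (4:ℝ) ^ (n+1) = (2 ^ (n+1)) ^ 2 := by
    rw [← pow_mul, mul_comm, pow_mul]; norm_num
  rw [this]
  exact pow_le_pow_left₀ (by linarith) h2.le 2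

/-- the increment integrand -/
noncomputable def incr (p q K : ℕ) (x y : ℝ) : ℝ :=
  dens p q K x y * sqw ((p:ℝ) ^ (K+1) * x) * sqw ((q:ℝ) ^ (K+1) * y)

lemma ii_incr (p q K : ℕ) (u a v b s s' : ℝ) :
    IntervalIntegrable (fun t => incr p q K (u * t + a) (v * t + b)) volume s s' := by
  refine ii_of_bdd (C := 2 ^ K) ?_ (fun t => ?_) s s'
  · unfold incr
    exact ((measurable_dens p q K (meas_aff u a) (meas_aff v b)).mul
      (measurable_sqw.comp (measurable_const.mul (meas_aff u a)))).mul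
      (measurable_sqw.comp (measurable_const.mul (meas_aff v b)))
  · unfold incr
    rw [abs_mul, abs_mul, abs_sqw, abs_sqw, mul_one, mul_one,
      abs_of_nonneg (dens_nonneg _ _ _ _ _)]
    exact dens_le _ _ _ _ _

lemma step_pos {p q : ℕ} (hp : 4 ≤ p) (hq : 4 ≤ q) (hqe : Even q) (K : ℕ) {u v M ρ : ℝ}
    (hu : 0 < u) (hu1 : u ≤ 1) (hv : v ≠ 0) (hv1 : |v| ≤ 1) (hmax : u = 1 ∨ |v| = 1)
    (hM : 1 ≤ M) (hLB : ∀ j ≤ K, LB p q j u v M) (hρ1 : 1 ≤ ρ)
    (hρ : ρ ^ 2 * ((p:ℝ) ^ (K+1) * u) = (q:ℝ) ^ (K+1) * |v|) (a b : ℝ) :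
    |∫ t in (0:ℝ)..1, incr p q K (u * t + a) (v * t + b)| ≤ (216 / ρ + 2 / 2 ^ K) * M := by
  have hp0 : 0 < p := by omega
  have hq0 : 0 < q := by omega
  have hp4 : (4:ℝ) ≤ p := by exact_mod_cast hp
  have hq4 : (4:ℝ) ≤ q := by exact_mod_cast hq
  set P : ℝ := (p:ℝ) ^ (K+1) with hP
  set Q : ℝ := (q:ℝ) ^ (K+1) with hQ
  have hP0 : 0 < P := by positivity
  have hQ0 : 0 < Q := by positivity
  have hva : 0 < |v| := abs_pos.mpr hv
  set A : ℝ := 1 / (P * u) with hA
  have hA0 : 0 < A := by positivity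
  set i₀ : ℤ := ⌊P * a⌋ with hi₀
  set τ : ℕ → ℝ := fun i => (((i₀:ℝ) + i) / P - a) / u with hτ
  have hτs : ∀ i : ℕ, τ i = τ 0 + i * A := by
    intro i; simp only [hτ, hA]; push_cast; field_simp; ring
  have hτ1 : ∀ i : ℕ, τ (i+1) = τ i + A := by
    intro i; rw [hτs (i+1), hτs i]; push_cast; ring
  have hτ0 : τ 0 ≤ 0 := by
    simp only [hτ]
    refine div_nonpos_of_nonpos_of_nonneg ?_ hu.le
    have := Int.floor_le (P * a)
    rw [sub_nonpos, div_le_iff₀ hP0]; push_cast; linarith
  have hτ0' : 0 < τ 0 + A := by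
    rw [← hτ1 0]
    simp only [hτ]
    refine div_pos ?_ hu
    have := Int.lt_floor_add_one (P * a)
    rw [sub_pos, lt_div_iff₀ hP0]; push_cast; linarith
  set N : ℕ := ⌈(1 - τ 0) / A⌉₊ with hN
  have hN1 : 1 ≤ τ N := by
    have := Nat.le_ceil ((1 - τ 0) / A)
    rw [div_le_iff₀ hA0] at this
    rw [hτs N]; linarith
  have hN2 : ∀ i < N, τ i < 1 := by
    intro i hi
    have := Nat.lt_ceil.mp hi
    rw [lt_div_iff₀ hA0] at this
    rw [hτs i]; linarith
  have hN3 : τ N < 1 + A := by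
    have := Nat.ceil_lt_add_one (a := (1 - τ 0) / A) (div_nonneg (by linarith) hA0.le)
    rw [← hN, div_add_one hA0.ne', lt_div_iff₀ hA0] at this
    rw [hτs N]; linarith
  have hpos : ∀ i : ℕ, 0 < τ (i+1) := by
    intro i
    rw [hτs (i+1)]; push_cast
    have : (0:ℝ) ≤ i * A := by positivity
    linarith
  set c : ℕ → ℝ := fun i => max 0 (min 1 (τ i)) with hc
  have hc0 : c 0 = 0 := by
    simp only [hc]; exact max_eq_left (min_le_of_right_le hτ0)
  have hcN : c N = 1 := by
    simp only [hc]; rw [min_eq_left hN1]; simp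
  have hcl : ∀ i < N, τ i ≤ c i ∧ c i ≤ c (i+1) ∧ c (i+1) ≤ τ (i+1) := by
    intro i hi
    have h1 := hN2 i hi
    have h2 := hpos i
    have h3 := hτ1 i
    simp only [hc]
    refine ⟨?_, ?_, ?_⟩
    · rw [min_eq_right h1.le]; exact le_max_right _ _
    · exact max_le_max le_rfl (min_le_min le_rfl (by linarith))
    · exact max_le h2.le (min_le_right _ _)
  set x : ℕ → ℝ := fun i => ((i₀:ℝ) + i) / P with hx
  have hxτ : ∀ i, x i = u * τ i + a := by
    intro i; simp only [hx, hτ]; field_simp; ring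
  have huA : u * A = 1 / P := by simp only [hA]; field_simp
  -- the pieces
  have hpiece : ∀ i < N, |∫ t in c i..c (i+1), incr p q K (u * t + a) (v * t + b)| ≤
      2 / (Q * |v|) * (dens p q K (x i) (v * c i + b) + dens p q K (x i) (v * c (i+1) + b)) := by
    intro i hi
    obtain ⟨h1, h2, h3⟩ := hcl i hi
    have e : ∫ t in c i..c (i+1), incr p q K (u * t + a) (v * t + b) =
        ∫ t in c i..c (i+1), dens p q K (x i) (v * t + b) * sqw (P * x i) *
          sqw (Q * (v * t + b)) := by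
      refine int_congr_Ioo h2 fun t ht => ?_
      have hfl : ⌊P * (u * t + a)⌋ = ⌊P * x i⌋ := by
        have e1 : P * x i = ((i₀ + (i:ℤ) : ℤ) : ℝ) := by
          simp only [hx]; push_cast; field_simp
        rw [e1, Int.floor_intCast, Int.floor_eq_iff, ← e1, hxτ i]
        have t1 : τ i < t := lt_of_le_of_lt h1 ht.1
        have t2 : t < τ i + A := by rw [← hτ1 i]; exact lt_of_lt_of_le ht.2 h3
        have t3 : P * (u * A) = 1 := by rw [huA]; field_simp
        have t4 : 0 < P * u := by positivity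
        constructor <;> nlinarith
      unfold incr
      rw [dens_congr hp0 hq0 K (floor_pow_congr hp0 (Nat.le_succ K) hfl) rfl, sqw_congr hfl]
    rw [e]
    exact cell_bound hp0 hq0 hqe K hv b (x i) (sqw (P * x i)) (abs_sqw _).le _ _
  have hsum : |∫ t in (0:ℝ)..1, incr p q K (u * t + a) (v * t + b)| ≤
      ∑ i ∈ Finset.range N, 2 / (Q * |v|) *
        (dens p q K (x i) (v * c i + b) + dens p q K (x i) (v * c (i+1) + b)) := by
    rw [← hc0, ← hcN, ← intervalIntegral.sum_integral_adjacent_intervals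
      (fun k _ => ii_incr p q K u a v b _ _)]
    refine (Finset.abs_sum_le_sum_abs _ _).trans (Finset.sum_le_sum fun i hi => ?_)
    exact hpiece i (Finset.mem_range.mp hi)
  refine hsum.trans ?_
  have hB : 2 / (Q * |v|) = 2 * A / ρ ^ 2 := by
    rw [← hρ, hA]; field_simp
  have hρ0 : 0 < ρ := by linarith
  have hM0 : 0 ≤ M := by linarith
  by_cases hA1 : A ≤ 1
  · obtain ⟨d, hd1, hd2, hd3⟩ := exists_d hρ1
    set j : ℕ := K + 1 - d with hj
    have hjK : j ≤ K := by omega
    have hKj : K ≤ j + d := by omega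
    have hvA : |v| * A ≤ 1 / (q:ℝ) ^ j := by
      by_cases hdK : d ≤ K + 1
      · have e1 : |v| * A = ρ ^ 2 / Q := by
          rw [hA, eq_div_iff hQ0.ne', ← mul_div_assoc, mul_one, div_mul_eq_mul_div,
            div_eq_iff (by positivity)]
          linarith
        have e2 : Q = (q:ℝ) ^ j * (q:ℝ) ^ d := by
          rw [hQ, ← pow_add]; congr 1; omega
        have e3 : (4:ℝ) ^ d ≤ (q:ℝ) ^ d := pow_le_pow_left₀ (by norm_num) hq4 d
        rw [e1, e2, div_le_div_iff₀ (by positivity) (by positivity)]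
        have : (0:ℝ) < (q:ℝ) ^ j := by positivity
        nlinarith
      · have : j = 0 := by omega
        rw [this]; simp
        nlinarith
    have huj : u * A ≤ 1 / (p:ℝ) ^ j := by
      rw [huA]
      refine one_div_le_one_div_of_le (by positivity) ?_
      exact pow_le_pow_right₀ (by linarith) (by omega)
    have key : ∀ i, ∀ s, τ i ≤ s → s ≤ τ (i+1) → A * dens p q K (x i) (v * s + b) ≤
        2 ^ d * ∫ t in τ i..τ (i+1), fat p q j (u * t + a) (v * t + b) := by
      intro i s hs1 hs2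
      have h1 : dens p q K (x i) (v * s + b) ≤ 2 ^ d * dens p q j (x i) (v * s + b) := by
        obtain ⟨e, he⟩ := Nat.exists_eq_add_of_le hjK
        have h2 := dens_add_le p q j e (x i) (v * s + b)
        rw [← he] at h2
        refine h2.trans (mul_le_mul_of_nonneg_right ?_ (dens_nonneg _ _ _ _ _))
        exact pow_le_pow_right₀ (by norm_num) (by omega)
      have h2 : A * dens p q j (x i) (v * s + b) ≤
          ∫ t in τ i..τ (i+1), fat p q j (u * t + a) (v * t + b) := by
        have h3 : ∫ _ in τ i..τ (i+1), dens p q j (x i) (v * s + b) =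
            A * dens p q j (x i) (v * s + b) := by
          rw [intervalIntegral.integral_const, hτ1 i]; simp
        rw [← h3]
        refine intervalIntegral.integral_mono_on (by rw [hτ1 i]; linarith)
          intervalIntegrable_const (ii_fat ..) fun t ht => ?_
        have ht1 := ht.1
        have ht2 := ht.2
        rw [hτ1 i] at ht2 hs2
        refine dens_le_fat hp0 hq0 j ?_ ?_
        · refine le_trans ?_ huj
          rw [hxτ i, show u * τ i + a - (u * t + a) = u * (τ i - t) by ring, abs_mul,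
            abs_of_pos hu]
          refine mul_le_mul_of_nonneg_left ?_ hu.le
          rw [abs_le]; constructor <;> linarith
        · refine le_trans ?_ hvA
          rw [show v * s + b - (v * t + b) = v * (s - t) by ring, abs_mul]
          refine mul_le_mul_of_nonneg_left ?_ hva.le
          rw [abs_le]; constructor <;> linarith
      calc A * dens p q K (x i) (v * s + b) ≤ A * (2 ^ d * dens p q j (x i) (v * s + b)) :=
            mul_le_mul_of_nonneg_left h1 hA0.le
        _ = 2 ^ d * (A * dens p q j (x i) (v * s + b)) := by ring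
        _ ≤ _ := mul_le_mul_of_nonneg_left h2 (by positivity)
    have hs2 : ∑ i ∈ Finset.range N, 2 / (Q * |v|) *
        (dens p q K (x i) (v * c i + b) + dens p q K (x i) (v * c (i+1) + b)) ≤
        ∑ i ∈ Finset.range N, 4 * 2 ^ d / ρ ^ 2 *
          ∫ t in τ i..τ (i+1), fat p q j (u * t + a) (v * t + b) := by
      refine Finset.sum_le_sum fun i hi => ?_
      obtain ⟨h1, h2, h3⟩ := hcl i (Finset.mem_range.mp hi)
      have k1 := key i (c i) h1 (h2.trans h3)
      have k2 := key i (c (i+1)) (h1.trans h2) h3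
      rw [hB]
      have e : ∀ I D₁ D₂ : ℝ, A * D₁ ≤ 2 ^ d * I → A * D₂ ≤ 2 ^ d * I →
          2 * A / ρ ^ 2 * (D₁ + D₂) ≤ 4 * 2 ^ d / ρ ^ 2 * I := by
        intro I D₁ D₂ a1 a2
        rw [div_mul_eq_mul_div, div_mul_eq_mul_div]
        refine div_le_div_of_nonneg_right ?_ (by positivity)
        linarith
      exact e _ _ _ k1 k2
    refine hs2.trans ?_
    rw [← Finset.mul_sum, intervalIntegral.sum_integral_adjacent_intervals
      (fun k _ => ii_fat p q j u a v b _ _)]
    have h27 := int_fat (hLB j hjK) a b (s := τ 0) (s' := τ N) (by linarith) (by linarith)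
      (by linarith)
    have h4 : 4 * 2 ^ d / ρ ^ 2 ≤ 8 / ρ := by
      rw [div_le_div_iff₀ (by positivity) hρ0]; nlinarith
    calc 4 * 2 ^ d / ρ ^ 2 * ∫ t in τ 0..τ N, fat p q j (u * t + a) (v * t + b)
        ≤ 4 * 2 ^ d / ρ ^ 2 * (27 * M) := mul_le_mul_of_nonneg_left h27 (by positivity)
      _ ≤ 8 / ρ * (27 * M) := mul_le_mul_of_nonneg_right h4 (by positivity)
      _ = 216 / ρ * M := by ring
      _ ≤ _ := mul_le_mul_of_nonneg_right (le_add_of_nonneg_right (by positivity)) hM0
  · push Not at hA1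
    have hN4 : N ≤ 2 := by
      have h1 := hτs N
      have : (N:ℝ) * A < 3 * A := by linarith
      have : (N:ℝ) < 3 := lt_of_mul_lt_mul_right this hA0.le
      have : N < 3 := by exact_mod_cast this
      omega
    have hP1 : (4:ℝ) ^ (K+1) ≤ P := pow_le_pow_left₀ (by norm_num) hp4 _
    have hQ1 : (4:ℝ) ^ (K+1) ≤ Q := pow_le_pow_left₀ (by norm_num) hq4 _
    have h41 : (1:ℝ) ≤ 4 ^ (K+1) := one_le_pow₀ (by norm_num)
    have hv2 : |v| = 1 := by
      rcases hmax with h | h
      · exfalso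
        rw [hA, h, mul_one, lt_div_iff₀ hP0] at hA1
        linarith
      · exact h
    have hs2 : ∑ i ∈ Finset.range N, 2 / (Q * |v|) *
        (dens p q K (x i) (v * c i + b) + dens p q K (x i) (v * c (i+1) + b)) ≤
        ∑ i ∈ Finset.range N, 1 / (2:ℝ) ^ K := by
      refine Finset.sum_le_sum fun i _ => ?_
      have k1 := dens_le p q K (x i) (v * c i + b)
      have k2 := dens_le p q K (x i) (v * c (i+1) + b)
      rw [hv2, mul_one, div_mul_eq_mul_div, div_le_div_iff₀ hQ0 (by positivity)]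
      have e4 : (4:ℝ) ^ (K+1) = 4 * (2 ^ K * 2 ^ K) := by
        rw [pow_succ, ← mul_pow]; norm_num; ring
      have : (0:ℝ) < 2 ^ K := by positivity
      nlinarith
    refine hs2.trans ?_
    rw [Finset.sum_const, Finset.card_range, nsmul_eq_mul]
    have : (N:ℝ) ≤ 2 := by exact_mod_cast hN4
    have h2 : (0:ℝ) < 1 / 2 ^ K := by positivity
    have h3 : (0:ℝ) ≤ 216 / ρ := by positivity
    have h4 : (2:ℝ) / 2 ^ K = 2 * (1 / 2 ^ K) := by ring
    rw [h4]
    nlinarith

end Pool.Agent.H522Z.BM
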