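import Pool.Agent.H522Z.BM.Line

set_option autoImplicit false

open MeasureTheory Set

namespace Pool.Agent.H522Z.BM

/-- unit interval measure -/
noncomputable def mI : Measure ℝ := volume.restrict (Ico (0:ℝ) 1)

instance : IsFiniteMeasure mI := by unfold mI; infer_instance

/-- weighted measure on the unit square -/
noncomputable def wm (f : ℝ → ℝ → ℝ) : Measure (ℝ × ℝ) :=
  (mI.prod mI).withDensity fun z => ENNReal.ofReal (f z.1 z.2)

/-- slanted strip -/
def strip (s c η : ℝ) : Set (ℝ × ℝ) := {z | |z.2 - (s * z.1 + c)| < η}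

lemma measurableSet_strip (s c η : ℝ) : MeasurableSet (strip s c η) := by
  unfold strip
  exact measurableSet_lt (by fun_prop) measurable_const

lemma lint_mI {g : ℝ → ℝ} (hg : IntervalIntegrable g volume 0 1) (h0 : ∀ t, 0 ≤ g t) :
    ∫⁻ t, ENNReal.ofReal (g t) ∂mI = ENNReal.ofReal (∫ t in (0:ℝ)..1, g t) := by
  unfold mI
  rw [intervalIntegral.integral_of_le zero_le_one, integral_Ioc_eq_integral_Ioo,
    ← integral_Ico_eq_integral_Ioo, ofReal_integral_eq_lintegral_ofReal]
  · exact (intervalIntegrable_iff_integrableOn_Ico_of_le zero_le_one).mp hg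
  · exact Filter.Eventually.of_forall h0

lemma wm_strip {f : ℝ → ℝ → ℝ} (hf : Measurable fun z : ℝ × ℝ => f z.1 z.2)
    {s C : ℝ} (hb : ∀ c, ∫⁻ t, ENNReal.ofReal (f t (s * t + c)) ∂mI ≤ ENNReal.ofReal C)
    (c η : ℝ) : wm f (strip s c η) ≤ ENNReal.ofReal C * ENNReal.ofReal (2 * η) := by
  have hF : Measurable fun z : ℝ × ℝ => ENNReal.ofReal (f z.1 z.2) := hf.ennreal_ofReal
  unfold wm
  rw [withDensity_apply _ (measurableSet_strip s c η), ← lintegral_indicator
    (measurableSet_strip s c η), lintegral_prod _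
    (hF.indicator (measurableSet_strip s c η)).aemeasurable]
  have h1 : ∀ x : ℝ, ∫⁻ y, (strip s c η).indicator
      (fun z : ℝ × ℝ => ENNReal.ofReal (f z.1 z.2)) (x, y) ∂mI ≤
      ∫⁻ z in Ioo (-η) η, ENNReal.ofReal (f x (s * x + (c + z))) := by
    intro x
    refine (lintegral_mono' (ν := volume) Measure.restrict_le_self le_rfl).trans ?_
    rw [← lintegral_add_left_eq_self _ (s * x + c), ← lintegral_indicator measurableSet_Ioo]
    refine lintegral_mono fun z => ?_
    by_cases hz : z ∈ Ioo (-η) η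
    · rw [indicator_of_mem hz, add_assoc]
      exact indicator_le_self _ _ _
    · rw [indicator_of_notMem]
      · exact bot_le
      · intro h
        apply hz
        simp only [strip, mem_ofPred_eq, add_sub_cancel_left] at h
        exact abs_lt.mp h
  refine (lintegral_mono h1).trans ?_
  rw [lintegral_lintegral_swap]
  · calc ∫⁻ z in Ioo (-η) η, ∫⁻ x, ENNReal.ofReal (f x (s * x + (c + z))) ∂mI
        ≤ ∫⁻ _ in Ioo (-η) η, ENNReal.ofReal C := lintegral_mono fun z => hb (c + z)
      _ = _ := by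
        rw [setLIntegral_const, Real.volume_Ioo]; congr 2; ring
  · refine Measurable.aemeasurable ?_
    exact hF.comp (f := fun z : ℝ × ℝ => (z.1, s * z.1 + (c + z.2))) (by fun_prop)

lemma wm_swap {f : ℝ → ℝ → ℝ} (hf : Measurable fun z : ℝ × ℝ => f z.1 z.2)
    {S : Set (ℝ × ℝ)} (hS : MeasurableSet S) :
    wm f (Prod.swap ⁻¹' S) = wm (fun x y => f y x) S := by
  have hF : Measurable fun z : ℝ × ℝ => ENNReal.ofReal (f z.1 z.2) := hf.ennreal_ofReal
  have hS' : MeasurableSet (Prod.swap ⁻¹' S) := measurable_swap hS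
  unfold wm
  rw [withDensity_apply _ hS', withDensity_apply _ hS, ← lintegral_indicator hS',
    ← lintegral_indicator hS, ← lintegral_prod_swap]
  congr 1

lemma meas_dens2 (p q K : ℕ) : Measurable fun z : ℝ × ℝ => dens p q K z.1 z.2 :=
  measurable_dens p q K measurable_fst measurable_snd

lemma wm_univ {p q : ℕ} (hp : 0 < p) (hq : 0 < q) (hqe : Even q) (K : ℕ) :
    wm (dens p q K) univ = 1 := by
  unfold wm
  rw [withDensity_apply _ MeasurableSet.univ, Measure.restrict_univ,
    lintegral_prod _ (meas_dens2 p q K).ennreal_ofReal.aemeasurable]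
  have : ∀ x : ℝ, ∫⁻ y, ENNReal.ofReal (dens p q K x y) ∂mI = 1 := by
    intro x
    have i1 := ii_dens p q K 0 x 1 0 0 1
    simp only [zero_mul, zero_add, one_mul, add_zero] at i1
    rw [lint_mI i1 (fun _ => dens_nonneg _ _ _ _ _), marg hp hq hqe]; simp
  simp only [this]
  simp [mI]

theorem strip_bound {p q : ℕ} (hp : 4 ≤ p) (hpq : p < q) (hpe : Even p) (hqe : Even q) :
    ∃ C : ℝ, 1 ≤ C ∧ ∀ s : ℝ, |s| ≤ 1 → ∀ (K : ℕ) (c η : ℝ),
      wm (dens p q K) (strip s c η) ≤ ENNReal.ofReal C * ENNReal.ofReal (2 * η) ∧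
      wm (dens p q K) (Prod.swap ⁻¹' strip s c η) ≤
        ENNReal.ofReal C * ENNReal.ofReal (2 * η) := by
  obtain ⟨C, hC1, hC⟩ := graph_bound hp hpq hpe hqe
  refine ⟨C, hC1, fun s hs K c η => ⟨?_, ?_⟩⟩
  · refine wm_strip (meas_dens2 p q K) (fun c => ?_) c η
    have i1 := ii_dens p q K 1 0 s c 0 1
    simp only [one_mul, add_zero] at i1
    rw [lint_mI i1 (fun _ => dens_nonneg _ _ _ _ _)]
    exact ENNReal.ofReal_le_ofReal (hC s hs K c).1
  · rw [wm_swap (meas_dens2 p q K) (measurableSet_strip s c η)]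
    refine wm_strip (f := fun x y => dens p q K y x)
      (measurable_dens p q K (f := Prod.snd) (g := Prod.fst) measurable_snd measurable_fst)
      (fun c => ?_) c η
    have i1 := ii_dens p q K s c 1 0 0 1
    simp only [one_mul, add_zero] at i1
    rw [lint_mI i1 (fun _ => dens_nonneg _ _ _ _ _)]
    exact ENNReal.ofReal_le_ofReal (hC s hs K c).2

/-- a parallelogram -/
def para (α β s c η : ℝ) : Set (ℝ × ℝ) := {z | z.1 ∈ Ioo α β} ∩ strip s c η

lemma measurableSet_para (α β s c η : ℝ) : MeasurableSet (para α β s c η) :=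
  (measurable_fst measurableSet_Ioo).inter (measurableSet_strip s c η)

lemma vol_para (α β s c η : ℝ) :
    volume (para α β s c η) = ENNReal.ofReal (2 * η) * ENNReal.ofReal (β - α) := by
  rw [Measure.volume_eq_prod, Measure.prod_apply (measurableSet_para α β s c η)]
  have : ∀ x : ℝ, volume (Prod.mk x ⁻¹' para α β s c η) =
      (Ioo α β).indicator (fun _ => ENNReal.ofReal (2 * η)) x := by
    intro x
    by_cases hx : x ∈ Ioo α β
    · rw [indicator_of_mem hx]
      have : Prod.mk x ⁻¹' para α β s c η = Ioo (s * x + c - η) (s * x + c + η) := by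
        ext y
        simp only [para, strip, mem_preimage, mem_inter_iff, mem_ofPred_eq, hx, true_and, abs_lt]
        rw [mem_Ioo]
        constructor <;> rintro ⟨h1, h2⟩ <;> constructor <;> linarith
      rw [this, Real.volume_Ioo]; congr 1; ring
    · rw [indicator_of_notMem hx]
      have : Prod.mk x ⁻¹' para α β s c η = ∅ := by
        ext y
        simp only [para, mem_preimage, mem_inter_iff, mem_ofPred_eq, hx, false_and,
          mem_empty_iff_false]
      rw [this]; simp
  simp only [this]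
  rw [lintegral_indicator measurableSet_Ioo, setLIntegral_const, Real.volume_Ioo]

end Pool.Agent.H522Z.BM
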